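import Pool.Agent.H354.ISO.Defs2

set_option autoImplicit false

/-! Project ISO (helper354): homomorphisms to finite groups and the profinite completion. -/

namespace Pool.Agent.H143.ISO.PROF

open Pool.Agent.H354.ISO CategoryTheory ProfiniteGrp

/-- the profinite completion -/
abbrev Cp (A : Type) [Group A] : ProfiniteGrp.{0} := ProfiniteCompletion.completion (GrpCat.of A)

/-- the canonical map -/
def et (A : Type) [Group A] : A →* Cp A where
  toFun x := ProfiniteCompletion.etaFn (GrpCat.of A) x
  map_one' := rfl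
  map_mul' _ _ := rfl

/-- continuity for the discrete topology -/
def Cn {A Q : Type} [Group A] [Group Q] (F : Cp A →* Q) : Prop :=
  @Continuous (Cp A) Q inferInstance ⊥ F

theorem exists_ext {A Q : Type} [Group A] [Group Q] [Finite Q] (f : A →* Q) :
    ∃ F : Cp A →* Q, Cn F ∧ ∀ a, F (et A a) = f a := by
  let P : ProfiniteGrp.{0} := ofFiniteGrp (FiniteGrp.of Q)
  let g : GrpCat.of A ⟶ GrpCat.of P := GrpCat.ofHom (show A →* P from f)
  let L : Cp A ⟶ P := ProfiniteCompletion.lift g
  refine ⟨(show Cp A →* Q from L.hom.toMonoidHom), ?_, ?_⟩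
  · exact L.hom.continuous_toFun
  · intro a
    have h := ProfiniteCompletion.lift_eta g
    exact ConcreteCategory.congr_hom h a

theorem unique_ext {A Q : Type} [Group A] [Group Q] (F G : Cp A →* Q) (hF : Cn F) (hG : Cn G)
    (h : ∀ a, F (et A a) = G (et A a)) : F = G := by
  let : TopologicalSpace Q := ⊥
  have : DiscreteTopology Q := ⟨rfl⟩
  have h1 : (F : Cp A → Q) = G :=
    (ProfiniteCompletion.denseRange (GrpCat.of A)).equalizer hF hG (by
      funext a
      exact h a)
  exact DFunLike.coe_injective h1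

/-- the extension -/
noncomputable def ex {A Q : Type} [Group A] [Group Q] [Finite Q] (f : A →* Q) : Cp A →* Q :=
  (exists_ext f).choose

theorem ex_cn {A Q : Type} [Group A] [Group Q] [Finite Q] (f : A →* Q) : Cn (ex f) :=
  (exists_ext f).choose_spec.1

theorem ex_et {A Q : Type} [Group A] [Group Q] [Finite Q] (f : A →* Q) (a : A) :
    ex f (et A a) = f a :=
  (exists_ext f).choose_spec.2 a

/-- transport -/
noncomputable def tr {A B : Type} [Group A] [Group B] (e : Cp B →ₜ* Cp A) {Q : Type} [Group Q]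
    [Finite Q] (f : A →* Q) : B →* Q :=
  ((ex f).comp e.toMonoidHom).comp (et B)

theorem ex_tr {A B : Type} [Group A] [Group B] (e : Cp B →ₜ* Cp A) {Q : Type} [Group Q]
    [Finite Q] (f : A →* Q) : ex (tr e f) = (ex f).comp e.toMonoidHom := by
  refine unique_ext _ _ (ex_cn _) ?_ fun b => ?_
  · let : TopologicalSpace Q := ⊥
    have hc : Continuous (ex f : Cp A → Q) := ex_cn f
    exact hc.comp e.continuous_toFun
  · rw [ex_et]
    rfl

theorem tr_tr {A B : Type} [Group A] [Group B] (e : Cp B →ₜ* Cp A) (e' : Cp A →ₜ* Cp B)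
    (h : ∀ x, e (e' x) = x) {Q : Type} [Group Q] [Finite Q] (f : A →* Q) :
    tr e' (tr e f) = f := by
  ext a
  have h1 : tr e' (tr e f) a = ex (tr e f) (e' (et A a)) := rfl
  rw [h1, ex_tr]
  have h2 : ((ex f).comp e.toMonoidHom) (e' (et A a)) = ex f (e (e' (et A a))) := rfl
  rw [h2, h, ex_et]

theorem tr_comp {A B : Type} [Group A] [Group B] (e : Cp B →ₜ* Cp A) {Q Q' : Type} [Group Q]
    [Finite Q] [Group Q'] [Finite Q'] (h : Q →* Q') (f : A →* Q) :
    tr e (h.comp f) = h.comp (tr e f) := by
  have h1 : ex (h.comp f) = h.comp (ex f) := by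
    refine unique_ext _ _ (ex_cn _) ?_ fun a => ?_
    · let : TopologicalSpace Q := ⊥
      let : TopologicalSpace Q' := ⊥
      have : DiscreteTopology Q := ⟨rfl⟩
      have hc : Continuous (ex f : Cp A → Q) := ex_cn f
      have hh : Continuous (h : Q → Q') := continuous_of_discreteTopology
      exact hh.comp hc
    · rw [ex_et]
      show h (f a) = h (ex f (et A a))
      rw [ex_et]
  unfold tr
  rw [h1]
  rfl

theorem t_PROF : S_PROF := by
  intro A B _ _ ⟨e⟩
  let e1 : Cp A →ₜ* Cp B := e
  let e2 : Cp B →ₜ* Cp A := e.symm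
  have h12 : ∀ x, e1 (e2 x) = x := fun x => e.apply_symm_apply x
  have h21 : ∀ x, e2 (e1 x) = x := fun x => e.symm_apply_apply x
  exact ⟨{ go := fun Q _ _ f => tr e2 f
           ba := fun Q _ _ f => tr e1 f
           go_ba := fun Q _ _ f => tr_tr e1 e2 h12 f
           ba_go := fun Q _ _ f => tr_tr e2 e1 h21 f
           nat := fun Q Q' _ _ _ _ h f => tr_comp e2 h f }⟩

end Pool.Agent.H143.ISO.PROF
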